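import Mathlib

/-!
# The maximal height of a divisor of `x ^ (p q ^ b) - 1`

For primes `p < q` and `b ≥ 1` the largest height `B (p q ^ b)` of a divisor of `x ^ (p q ^ b) - 1`
is `p` times the largest height of a divisor of `(x ^ (p q ^ (b - 1)) - 1) / (x ^ p - 1)`.
-/

set_option autoImplicit false

namespace Pool.Agent.Results.MP_b384de_nt.DivisibleByP

open Polynomial

/-- The height of an integer polynomial: the largest absolute value of a coefficient. -/
noncomputable def height (f : ℤ[X]) : ℕ := f.support.sup fun i => (f.coeff i).natAbs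

/-- `B n` is the largest height of a divisor of `x ^ n - 1` in `ℤ[x]`. -/
noncomputable def B (n : ℕ) : ℕ := sSup {h : ℕ | ∃ f : ℤ[X], f ∣ X ^ n - 1 ∧ height f = h}

/-- `D p q b` is the largest height of a divisor of `(x ^ (p q ^ (b - 1)) - 1) / (x ^ p - 1)`. -/
noncomputable def D (p q b : ℕ) : ℕ :=
  sSup {h : ℕ | ∃ g : ℤ[X], g * (X ^ p - 1) ∣ X ^ (p * q ^ (b - 1)) - 1 ∧ height g = h}

/-! ## Heights -/

theorem le_height (f : ℤ[X]) (n : ℕ) : |f.coeff n| ≤ height f := by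
  by_cases h : n ∈ f.support
  · have := Finset.le_sup (f := fun i => (f.coeff i).natAbs) h
    rw [Int.abs_eq_natAbs]
    exact_mod_cast this
  · rw [notMem_support_iff] at h
    rw [h, abs_zero]
    exact Int.natCast_nonneg _

theorem height_le {f : ℤ[X]} {c : ℕ} (h : ∀ n, |f.coeff n| ≤ c) : height f ≤ c := by
  unfold height
  apply Finset.sup_le
  intro i _
  have h1 := h i
  rw [Int.abs_eq_natAbs] at h1
  exact_mod_cast h1

theorem exists_coeff_eq_height (f : ℤ[X]) : ∃ n, |f.coeff n| = height f := by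
  by_cases h : f.support.Nonempty
  · obtain ⟨i, _, hi⟩ := Finset.exists_mem_eq_sup f.support h fun i => (f.coeff i).natAbs
    refine ⟨i, ?_⟩
    unfold height
    rw [hi, Int.abs_eq_natAbs]
  · rw [Finset.not_nonempty_iff_eq_empty, support_eq_empty] at h
    subst h
    exact ⟨0, by simp [height]⟩

theorem height_neg (f : ℤ[X]) : height (-f) = height f := by
  unfold height
  rw [support_neg]
  simp

/-! ## Divisors of products of primes -/

theorem split_dvd {p f P : ℤ[X]} (hp : Prime p) (h : f ∣ p * P) :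
    (∃ g, g ∣ P ∧ f = p * g) ∨ f ∣ P := by
  obtain ⟨g, hg⟩ := h
  rcases hp.dvd_or_dvd (⟨P, hg.symm⟩ : p ∣ f * g) with ⟨r, hr⟩ | ⟨r, hr⟩
  · left
    refine ⟨r, ⟨g, ?_⟩, hr⟩
    apply mul_left_cancel₀ hp.ne_zero
    rw [hg, hr]
    ring
  · right
    refine ⟨r, ?_⟩
    apply mul_left_cancel₀ hp.ne_zero
    rw [hg, hr]
    ring

theorem dvd_prod (π : ℕ → ℤ[X]) (s : Finset ℕ) (hπ : ∀ d ∈ s, Prime (π d)) (f : ℤ[X])
    (hf : f ∣ ∏ d ∈ s, π d) : ∃ t ⊆ s, f = ∏ d ∈ t, π d ∨ f = -∏ d ∈ t, π d := by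
  classical
  induction s using Finset.induction_on generalizing f with
  | empty =>
      refine ⟨∅, subset_rfl, ?_⟩
      rw [Finset.prod_empty] at hf ⊢
      have hu : IsUnit f := isUnit_iff_dvd_one.mpr hf
      obtain ⟨r, hr, rfl⟩ := Polynomial.isUnit_iff.mp hu
      rcases Int.isUnit_iff.mp hr with rfl | rfl
      · left; simp
      · right; simp
  | insert a s ha ih =>
      rw [Finset.prod_insert ha] at hf
      rcases split_dvd (hπ a (Finset.mem_insert_self a s)) hf with ⟨g, hg, rfl⟩ | hf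
      · obtain ⟨t, ht, h⟩ := ih (fun d hd => hπ d (Finset.mem_insert_of_mem hd)) g hg
        refine ⟨insert a t, Finset.insert_subset_insert a ht, ?_⟩
        rw [Finset.prod_insert (fun h => ha (ht h))]
        rcases h with rfl | rfl
        · left; rfl
        · right; ring
      · obtain ⟨t, ht, h⟩ := ih (fun d hd => hπ d (Finset.mem_insert_of_mem hd)) f hf
        exact ⟨t, ht.trans (Finset.subset_insert a s), h⟩

theorem divisors_of_X_pow_sub_one {n : ℕ} (hn : 0 < n) {f : ℤ[X]} (hf : f ∣ X ^ n - 1) :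
    ∃ t ⊆ n.divisors, f = ∏ d ∈ t, cyclotomic d ℤ ∨ f = -∏ d ∈ t, cyclotomic d ℤ := by
  rw [← prod_cyclotomic_eq_X_pow_sub_one hn] at hf
  refine dvd_prod (fun d => cyclotomic d ℤ) _ (fun d hd => ?_) f hf
  exact (cyclotomic.irreducible (Nat.pos_of_mem_divisors hd)).prime

theorem prod_dvd {n : ℕ} (hn : 0 < n) {t : Finset ℕ} (ht : t ⊆ n.divisors) :
    ∏ d ∈ t, cyclotomic d ℤ ∣ X ^ n - 1 := by
  rw [← prod_cyclotomic_eq_X_pow_sub_one hn]
  exact Finset.prod_dvd_prod_of_subset _ _ _ ht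

/-- Sets of heights of divisors of `x ^ n - 1` have a greatest element. -/
theorem isGreatest_of_dvd {n : ℕ} (hn : 0 < n) (P : ℤ[X] → Prop)
    (hP : ∀ f, P f → f ∣ X ^ n - 1) (h1 : ∃ f, P f) :
    IsGreatest {h : ℕ | ∃ f : ℤ[X], P f ∧ height f = h}
      (sSup {h : ℕ | ∃ f : ℤ[X], P f ∧ height f = h}) := by
  classical
  have hb : BddAbove {h : ℕ | ∃ f : ℤ[X], P f ∧ height f = h} := by
    refine ⟨n.divisors.powerset.sup fun t => height (∏ d ∈ t, cyclotomic d ℤ), ?_⟩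
    rintro _ ⟨f, hf, rfl⟩
    obtain ⟨t, ht, h⟩ := divisors_of_X_pow_sub_one hn (hP f hf)
    have h2 := Finset.le_sup (f := fun t => height (∏ d ∈ t, cyclotomic d ℤ))
      (Finset.mem_powerset.mpr ht)
    rcases h with rfl | rfl
    · exact h2
    · rw [height_neg]; exact h2
  obtain ⟨f, hf⟩ := h1
  exact ⟨Nat.sSup_mem ⟨height f, f, hf, rfl⟩ hb, fun h hh => le_csSup hb hh⟩

/-! ## Products with `g (x ^ q)` -/

theorem term_coeff {q : ℕ} (hq : 0 < q) (g : ℤ[X]) (e N : ℕ) :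
    (X ^ e * expand ℤ q g).coeff N =
      if e ≤ N ∧ q ∣ (N - e) then g.coeff ((N - e) / q) else 0 := by
  rw [coeff_X_pow_mul']
  by_cases h : e ≤ N
  · rw [if_pos h, coeff_expand hq]
    by_cases h2 : q ∣ N - e
    · rw [if_pos h2, if_pos ⟨h, h2⟩]
    · rw [if_neg h2, if_neg (fun h3 => h2 h3.2)]
  · rw [if_neg h, if_neg (fun h3 => h h3.1)]

theorem coeff_of_mem {q : ℕ} (hq : 0 < q) (g : ℤ[X]) (s : Finset ℕ) (e : ℕ → ℕ)
    (he : ∀ k ∈ s, ∀ l ∈ s, e k ≡ e l [MOD q] → k = l) (N k : ℕ) (hk : k ∈ s) (hkN : e k ≤ N)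
    (hkq : q ∣ N - e k) :
    ((∑ k ∈ s, X ^ (e k)) * expand ℤ q g).coeff N = g.coeff ((N - e k) / q) := by
  rw [Finset.sum_mul, Polynomial.finsetSum_coeff, Finset.sum_eq_single k]
  · rw [term_coeff hq, if_pos ⟨hkN, hkq⟩]
  · intro l hl hlk
    rw [term_coeff hq]
    apply if_neg
    rintro ⟨hlN, hlq⟩
    apply hlk
    apply he l hl k hk
    have h1 : e l ≡ N [MOD q] := (Nat.modEq_iff_dvd' hlN).mpr hlq
    have h2 : e k ≡ N [MOD q] := (Nat.modEq_iff_dvd' hkN).mpr hkq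
    exact h1.trans h2.symm
  · intro h
    exact absurd hk h

theorem coeff_of_not {q : ℕ} (hq : 0 < q) (g : ℤ[X]) (s : Finset ℕ) (e : ℕ → ℕ) (N : ℕ)
    (h : ∀ k ∈ s, ¬ (e k ≤ N ∧ q ∣ (N - e k))) :
    ((∑ k ∈ s, X ^ (e k)) * expand ℤ q g).coeff N = 0 := by
  rw [Finset.sum_mul, Polynomial.finsetSum_coeff]
  refine Finset.sum_eq_zero fun k hk => ?_
  rw [term_coeff hq, if_neg (h k hk)]

theorem bd_mul_expand {q : ℕ} (hq : 0 < q) {g : ℤ[X]} {c : ℤ} (hg : ∀ n, |g.coeff n| ≤ c)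
    (s : Finset ℕ) (e : ℕ → ℕ) (he : ∀ k ∈ s, ∀ l ∈ s, e k ≡ e l [MOD q] → k = l) (N : ℕ) :
    |((∑ k ∈ s, X ^ (e k)) * expand ℤ q g).coeff N| ≤ c := by
  by_cases hex : ∃ k ∈ s, e k ≤ N ∧ q ∣ (N - e k)
  · obtain ⟨k, hk, h1, h2⟩ := hex
    rw [coeff_of_mem hq g s e he N k hk h1 h2]
    exact hg _
  · push Not at hex
    rw [coeff_of_not hq g s e N (fun k hk h => hex k hk h.1 h.2), abs_zero]
    exact (abs_nonneg _).trans (hg 0)

/-! ## The easy multipliers -/

theorem bd_X_pow_mul {F : ℤ[X]} {c : ℤ} (hF : ∀ n, |F.coeff n| ≤ c) (k n : ℕ) :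
    |(X ^ k * F).coeff n| ≤ c := by
  rw [coeff_X_pow_mul']
  split_ifs
  · exact hF _
  · rw [abs_zero]
    exact (abs_nonneg _).trans (hF 0)

theorem bd_X_pow_sub_one {F : ℤ[X]} {c : ℤ} (hF : ∀ n, |F.coeff n| ≤ c) (k n : ℕ) :
    |((X ^ k - 1) * F).coeff n| ≤ 2 * c := by
  rw [sub_mul, one_mul, coeff_sub]
  have h1 := bd_X_pow_mul hF k n
  have h2 := hF n
  calc |(X ^ k * F).coeff n - F.coeff n| ≤ |(X ^ k * F).coeff n| + |F.coeff n| := abs_sub _ _
    _ ≤ 2 * c := by linarith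

theorem bd_geom {F : ℤ[X]} {c : ℤ} (hF : ∀ n, |F.coeff n| ≤ c) (p n : ℕ) :
    |((∑ i ∈ Finset.range p, X ^ i) * F).coeff n| ≤ p * c := by
  have h1 : ∀ i ∈ Finset.range p, |(X ^ i * F).coeff n| ≤ c := fun i _ => bd_X_pow_mul hF i n
  have h2 := Finset.sum_le_card_nsmul (Finset.range p) (fun i => |(X ^ i * F).coeff n|) c h1
  rw [Finset.card_range, nsmul_eq_mul] at h2
  have h3 : ((∑ i ∈ Finset.range p, X ^ i) * F).coeff n
      = ∑ i ∈ Finset.range p, (X ^ i * F).coeff n := by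
    rw [Finset.sum_mul, Polynomial.finsetSum_coeff]
  rw [h3]
  exact (Finset.abs_sum_le_sum_abs _ _).trans h2

/-! ## The multiplier `Φ_(p q)` -/

/-- partial sums of the coefficients -/
noncomputable def ps (g : ℤ[X]) (m : ℤ) : ℤ := ∑ j ∈ Finset.range (m + 1).toNat, g.coeff j

theorem ps_neg (g : ℤ[X]) {m : ℤ} (hm : m < 0) : ps g m = 0 := by
  unfold ps
  have : (m + 1).toNat = 0 := by omega
  rw [this, Finset.sum_range_zero]

theorem ps_sub (g : ℤ[X]) (m : ℤ) :
    ps g m - ps g (m - 1) = if 0 ≤ m then g.coeff m.toNat else 0 := by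
  split_ifs with h
  · obtain ⟨k, rfl⟩ := Int.eq_ofNat_of_zero_le h
    unfold ps
    have h1 : ((k : ℤ) + 1).toNat = k + 1 := by omega
    have h2 : ((k : ℤ) - 1 + 1).toNat = k := by omega
    rw [h1, h2, Finset.sum_range_succ]
    simp
  · rw [ps_neg g (by omega), ps_neg g (by omega), sub_zero]

theorem ps_lip_aux {g : ℤ[X]} {c : ℤ} (hg : ∀ n, |g.coeff n| ≤ c) (u : ℤ) (k : ℕ) :
    |ps g (u + k) - ps g u| ≤ c * k := by
  have hc : 0 ≤ c := (abs_nonneg _).trans (hg 0)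
  induction k with
  | zero => simp
  | succ k ih =>
      have h1 := ps_sub g (u + (k + 1 : ℕ))
      have h2 : u + ((k + 1 : ℕ) : ℤ) - 1 = u + k := by push_cast; ring
      rw [h2] at h1
      have h3 : |ps g (u + ((k + 1 : ℕ) : ℤ)) - ps g (u + k)| ≤ c := by
        rw [h1]
        split_ifs
        · exact hg _
        · rw [abs_zero]; exact hc
      have h4 : ps g (u + ((k + 1 : ℕ) : ℤ)) - ps g u
          = (ps g (u + ((k + 1 : ℕ) : ℤ)) - ps g (u + k)) + (ps g (u + k) - ps g u) := by ring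
      rw [h4]
      refine (abs_add_le _ _).trans ?_
      push_cast
      push_cast at h3
      nlinarith [ih, h3]

theorem ps_lip {g : ℤ[X]} {c : ℤ} (hg : ∀ n, |g.coeff n| ≤ c) (u v : ℤ) :
    |ps g u - ps g v| ≤ c * |u - v| := by
  rcases le_total v u with h | h
  · obtain ⟨k, hk⟩ := Int.eq_ofNat_of_zero_le (sub_nonneg.mpr h)
    have h1 := ps_lip_aux hg v k
    have h2 : v + (k : ℤ) = u := by omega
    rw [h2] at h1
    rw [abs_of_nonneg (sub_nonneg.mpr h), hk]
    exact h1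
  · obtain ⟨k, hk⟩ := Int.eq_ofNat_of_zero_le (sub_nonneg.mpr h)
    have h1 := ps_lip_aux hg u k
    have h2 : u + (k : ℤ) = v := by omega
    rw [h2] at h1
    rw [abs_sub_comm, abs_sub_comm u v, abs_of_nonneg (sub_nonneg.mpr h), hk]
    exact h1

/-- the number `i` with `0 ≤ i < q` and `p i ≡ n` modulo `q`; here `μ p ≡ 1` modulo `q` -/
def ii (q μ : ℤ) (n : ℤ) : ℤ := (n * μ) % q

/-- the number `a` with `n = p i + q a` -/
def aa (p q μ : ℤ) (n : ℤ) : ℤ := (n - p * ii q μ n) / q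

theorem ii_nonneg {q : ℤ} (hq : 0 < q) (μ n : ℤ) : 0 ≤ ii q μ n := Int.emod_nonneg _ hq.ne'

theorem ii_lt {q : ℤ} (hq : 0 < q) (μ n : ℤ) : ii q μ n < q := Int.emod_lt_of_pos _ hq

theorem aa_eq {p q μ : ℤ} (h : q ∣ μ * p - 1) (n : ℤ) :
    n = p * ii q μ n + q * aa p q μ n := by
  have h1 : q ∣ n - p * ii q μ n := by
    unfold ii
    have h2 := Int.emod_add_mul_ediv (n * μ) q
    have h3 : n - p * (n * μ % q) = q * (p * (n * μ / q)) - n * (μ * p - 1) := by
      have : n * μ % q = n * μ - q * (n * μ / q) := by linarith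
      rw [this]; ring
    rw [h3]
    exact dvd_sub (dvd_mul_right _ _) (h.mul_left n)
  unfold aa
  rw [Int.mul_ediv_cancel' h1]
  ring

theorem ii_sub (q μ n : ℤ) : ii q μ (n - q) = ii q μ n := by
  unfold ii
  rw [sub_mul, Int.sub_mul_emod_self_left]

theorem aa_sub {p q μ : ℤ} (hq : 0 < q) (h : q ∣ μ * p - 1) (n : ℤ) :
    aa p q μ (n - q) = aa p q μ n - 1 := by
  have h1 := aa_eq h n
  have h2 := aa_eq h (n - q)
  rw [ii_sub] at h2
  have h3 : q * aa p q μ (n - q) = q * (aa p q μ n - 1) := by linarith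
  exact mul_left_cancel₀ hq.ne' h3

theorem aa_neg {p q μ : ℤ} (hp : 0 < p) (hq : 0 < q) (h : q ∣ μ * p - 1) {n : ℤ} (hn : n < 0) :
    aa p q μ n < 0 := by
  have h1 := aa_eq h n
  have h2 := ii_nonneg hq μ n
  by_contra h3
  push Not at h3
  have : 0 ≤ p * ii q μ n + q * aa p q μ n := by positivity
  omega

/-- The total variation of `a` at three consecutive numbers is at most `p`. -/
theorem variation {p q : ℤ} (hp : 2 ≤ p) (hq : 2 ≤ q) (hpq : IsCoprime p q)
    {i0 i1 i2 a0 a1 a2 n : ℤ} (h0 : n = p * i0 + q * a0) (h1 : n - 1 = p * i1 + q * a1)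
    (h2 : n - 2 = p * i2 + q * a2) (hi0 : 0 ≤ i0) (hi0' : i0 < q) (hi1 : 0 ≤ i1) (hi1' : i1 < q)
    (hi2 : 0 ≤ i2) (hi2' : i2 < q) : |a0 - a1| + |a1 - a2| ≤ p := by
  obtain ⟨x, hx⟩ : ∃ x, x = i0 - i1 := ⟨_, rfl⟩
  obtain ⟨y, hy⟩ : ∃ y, y = i1 - i2 := ⟨_, rfl⟩
  obtain ⟨d, hd⟩ : ∃ d, d = a0 - a1 := ⟨_, rfl⟩
  obtain ⟨e, he⟩ : ∃ e, e = a1 - a2 := ⟨_, rfl⟩
  rw [← hd, ← he]
  have e1 : p * x + q * d = 1 := by rw [hx, hd]; linarith
  have e2 : p * y + q * e = 1 := by rw [hy, he]; linarith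
  have e3 : p * (x - y) = q * (e - d) := by linarith
  have hdvd : q ∣ x - y := by
    have h5 : q ∣ p * (x - y) := ⟨_, e3⟩
    exact hpq.symm.dvd_of_dvd_mul_left h5
  obtain ⟨k, hk⟩ := hdvd
  have hk1 : -2 < k := by
    by_contra h
    push Not at h
    have : q * k ≤ q * (-2) := mul_le_mul_of_nonneg_left h (by omega)
    omega
  have hk2 : k < 2 := by
    by_contra h
    push Not at h
    have : q * 2 ≤ q * k := mul_le_mul_of_nonneg_left h (by omega)
    omega
  have hk3 : k = -1 ∨ k = 0 ∨ k = 1 := by omega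
  rcases hk3 with rfl | rfl | rfl
  · -- `x - y = - q`
    have hxy : x - y = -q := by linarith
    have hed : e - d = -p := by
      have : q * (e - d) = q * (-p) := by rw [← e3, hxy]; ring
      exact mul_left_cancel₀ (by omega) this
    have hx0 : x ≤ -1 := by omega
    have hy0 : 1 ≤ y := by omega
    have hd0 : 0 < d := by nlinarith
    have he0 : e < 0 := by nlinarith
    rw [abs_of_pos hd0, abs_of_neg he0]
    omega
  · have hxy : x = y := by linarith
    have hed : e = d := by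
      have : q * (e - d) = q * 0 := by rw [← e3, hxy]; ring
      have := mul_left_cancel₀ (by omega : q ≠ 0) this
      omega
    have hx1 : 2 * x ≤ q - 1 := by omega
    have hx2 : -(q - 1) ≤ 2 * x := by omega
    rw [hed]
    have h5 : q * (2 * |d|) ≤ q * p := by
      rcases abs_cases d with ⟨h6, _⟩ | ⟨h6, _⟩
      · rw [h6]; nlinarith
      · rw [h6]; nlinarith
    have h6 := le_of_mul_le_mul_left h5 (by omega : 0 < q)
    omega
  · have hxy : x - y = q := by linarith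
    have hed : e - d = p := by
      have : q * (e - d) = q * p := by rw [← e3, hxy]; ring
      exact mul_left_cancel₀ (by omega) this
    have hx0 : 1 ≤ x := by omega
    have hy0 : y ≤ -1 := by omega
    have hd0 : d < 0 := by nlinarith
    have he0 : 0 < e := by nlinarith
    rw [abs_of_neg hd0, abs_of_pos he0]
    omega

theorem exists_mu {p q : ℕ} (h : p.Coprime q) : ∃ μ : ℤ, (q : ℤ) ∣ μ * p - 1 := by
  obtain ⟨a, b, hab⟩ := Nat.isCoprime_iff_coprime.mpr h
  refine ⟨a, -b, ?_⟩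
  linarith

theorem expand_geom (p q : ℕ) :
    expand ℤ p (∑ i ∈ Finset.range q, X ^ i) = ∑ i ∈ Finset.range q, X ^ (p * i) := by
  rw [map_sum]
  refine Finset.sum_congr rfl fun i _ => ?_
  rw [map_pow, expand_X, ← pow_mul]

theorem inj_mul {p q : ℕ} (h : p.Coprime q) : ∀ k ∈ Finset.range q, ∀ l ∈ Finset.range q,
    p * k ≡ p * l [MOD q] → k = l := by
  intro k hk l hl hkl
  rw [Finset.mem_range] at hk hl
  have h3 : k ≡ l [MOD q] := Nat.ModEq.cancel_left_of_coprime (c := p) (by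
    rw [Nat.gcd_comm]; exact h) hkl
  exact Nat.ModEq.eq_of_lt_of_lt h3 hk hl

theorem inj_id {q : ℕ} : ∀ k ∈ Finset.range q, ∀ l ∈ Finset.range q,
    k ≡ l [MOD q] → k = l := by
  intro k hk l hl hkl
  rw [Finset.mem_range] at hk hl
  exact Nat.ModEq.eq_of_lt_of_lt hkl hk hl

/-- the coefficients of `(∑ x ^ (p i)) g (x ^ q)` -/
theorem coeff_U {p q : ℕ} (hq : 0 < q) (hpq : p.Coprime q) {μ : ℤ}
    (hμ : (q : ℤ) ∣ μ * p - 1) (g : ℤ[X]) (n : ℕ) :
    ((∑ i ∈ Finset.range q, X ^ (p * i)) * expand ℤ q g).coeff n =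
      if 0 ≤ aa p q μ n then g.coeff (aa p q μ n).toNat else 0 := by
  have hq' : (0 : ℤ) < q := by exact_mod_cast hq
  have h1 := aa_eq hμ (n : ℤ)
  have h2 := ii_nonneg hq' μ n
  have h3 := ii_lt hq' μ n
  obtain ⟨k, hk⟩ := Int.eq_ofNat_of_zero_le h2
  rw [hk] at h1 h3
  have hk3 : k < q := by exact_mod_cast h3
  split_ifs with h
  · obtain ⟨a, ha⟩ := Int.eq_ofNat_of_zero_le h
    rw [ha] at h1
    have h4 : n = p * k + q * a := by exact_mod_cast h1
    have h5 : p * k ≤ n := by omega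
    have h6 : n - p * k = q * a := by omega
    rw [coeff_of_mem hq g (Finset.range q) (fun i => p * i) (inj_mul hpq) n k
      (Finset.mem_range.mpr hk3) h5 ⟨a, h6⟩, h6, Nat.mul_div_cancel_left a hq, ha]
    rfl
  · apply coeff_of_not hq
    rintro l hl ⟨h4, h5⟩
    apply h
    obtain ⟨m, hm⟩ := h5
    have h6 : n = p * l + q * m := by omega
    have h7 : (p : ℤ) * k + q * aa p q μ n = p * l + q * m := by
      rw [← h1]; exact_mod_cast h6
    have h8 : p * k ≡ p * l [MOD q] := by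
      rw [← Int.natCast_modEq_iff]
      apply (Int.modEq_iff_dvd).mpr
      refine ⟨aa p q μ n - m, ?_⟩
      push_cast
      linarith
    have h9 := inj_mul hpq k (Finset.mem_range.mpr hk3) l hl h8
    rw [h9] at h7
    have h10 : (q : ℤ) * aa p q μ n = q * m := by linarith
    have h11 := mul_left_cancel₀ hq'.ne' h10
    rw [h11]
    exact Int.natCast_nonneg m

theorem cyc_mul_geom {p q : ℕ} (hp : p.Prime) (hq : q.Prime) (h : p ≠ q) :
    cyclotomic (p * q) ℤ * ∑ i ∈ Finset.range q, X ^ i = ∑ i ∈ Finset.range q, X ^ (p * i) := by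
  have := Fact.mk hq
  have h1 : ¬ p ∣ q := fun h2 => h ((Nat.prime_dvd_prime_iff_eq hp hq).mp h2)
  have h2 := cyclotomic_expand_eq_cyclotomic_mul hp h1 ℤ
  rw [cyclotomic_prime, expand_geom, mul_comm q p] at h2
  exact h2.symm

theorem cyc_mul_geom' {p q : ℕ} (hp : p.Prime) (hq : q.Prime) (h : p ≠ q) :
    cyclotomic (p * q) ℤ * ∑ i ∈ Finset.range p, X ^ i =
      expand ℤ q (∑ i ∈ Finset.range p, X ^ i) := by
  have := Fact.mk hp
  have h1 : ¬ q ∣ p := fun h2 => h ((Nat.prime_dvd_prime_iff_eq hq hp).mp h2).symm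
  have h2 := cyclotomic_expand_eq_cyclotomic_mul hq h1 ℤ
  rw [cyclotomic_prime] at h2
  exact h2.symm

/-- the coefficients of `Φ_(p q) g (x ^ q)` -/
theorem coeff_W {p q : ℕ} (hp : p.Prime) (hq : q.Prime) (h : p ≠ q) {μ : ℤ}
    (hμ : (q : ℤ) ∣ μ * p - 1) (g : ℤ[X]) (n : ℕ) :
    (cyclotomic (p * q) ℤ * expand ℤ q g).coeff n =
      ps g (aa p q μ n) - ps g (aa p q μ (n - 1)) := by
  have hpq : p.Coprime q := (Nat.coprime_primes hp hq).mpr h
  have hp' : (0 : ℤ) < p := by exact_mod_cast hp.pos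
  have hq' : (0 : ℤ) < q := by exact_mod_cast hq.pos
  set W := cyclotomic (p * q) ℤ * expand ℤ q g with hW
  set U := (∑ i ∈ Finset.range q, X ^ (p * i)) * expand ℤ q g with hU
  have h1 : X ^ q * W - W = X ^ 1 * U - U := by
    have h2 : (∑ i ∈ Finset.range q, (X : ℤ[X]) ^ i) * (X - 1) = X ^ q - 1 := geom_sum_mul X q
    have h3 := cyc_mul_geom hp hq h
    have h4 : X ^ q * W - W = (X ^ q - 1) * W := by ring
    rw [h4, ← h2, hW, hU, ← h3]
    ring
  have hUn : ∀ m : ℤ, (if 0 ≤ m then U.coeff m.toNat else 0) =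
      ps g (aa p q μ m) - ps g (aa p q μ m - 1) := by
    intro m
    rw [ps_sub]
    split_ifs with h2 h3 h3
    · obtain ⟨k, rfl⟩ := Int.eq_ofNat_of_zero_le h2
      rw [Int.toNat_natCast, hU, coeff_U hq.pos hpq hμ g k, if_pos h3]
    · obtain ⟨k, rfl⟩ := Int.eq_ofNat_of_zero_le h2
      rw [Int.toNat_natCast, hU, coeff_U hq.pos hpq hμ g k, if_neg h3]
    · exact absurd h3 (not_le.mpr (aa_neg hp' hq' hμ (by omega)))
    · rfl
  induction n using Nat.strong_induction_on with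
  | _ n ih =>
    have h2 := congrArg (fun f => Polynomial.coeff f n) h1
    simp only [coeff_sub, coeff_X_pow_mul'] at h2
    have h3 : (if q ≤ n then W.coeff (n - q) else 0) =
        ps g (aa p q μ (n - q)) - ps g (aa p q μ (n - 1 - q)) := by
      split_ifs with h4
      · rw [ih (n - q) (by have := hq.pos; omega)]
        rw [Nat.cast_sub h4]
        congr 3
        ring
      · rw [ps_neg g (aa_neg hp' hq' hμ (by omega)), ps_neg g (aa_neg hp' hq' hμ (by omega)),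
          sub_zero]
    have h4 : (if 1 ≤ n then U.coeff (n - 1) else 0) =
        ps g (aa p q μ (n - 1)) - ps g (aa p q μ (n - 1) - 1) := by
      rw [← hUn]
      by_cases h5 : 1 ≤ n
      · rw [if_pos h5, if_pos (by omega)]
        congr 1
        omega
      · rw [if_neg h5, if_neg (by omega)]
    have h5 : U.coeff n = ps g (aa p q μ n) - ps g (aa p q μ n - 1) := by
      rw [← hUn, if_pos (by omega), Int.toNat_natCast]
    rw [h3, h4, h5, aa_sub hq' hμ, aa_sub hq' hμ] at h2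
    linarith

theorem bd_W {p q : ℕ} (hp : p.Prime) (hq : q.Prime) (h : p ≠ q) {g : ℤ[X]} {c : ℤ}
    (hg : ∀ n, |g.coeff n| ≤ c) (n : ℕ) :
    |(cyclotomic (p * q) ℤ * expand ℤ q g).coeff n| ≤ p * c ∧
    |((X - 1) * (cyclotomic (p * q) ℤ * expand ℤ q g)).coeff n| ≤ p * c := by
  have hpq : p.Coprime q := (Nat.coprime_primes hp hq).mpr h
  obtain ⟨μ, hμ⟩ := exists_mu hpq
  have hp' : (2 : ℤ) ≤ p := by exact_mod_cast hp.two_le
  have hq' : (2 : ℤ) ≤ q := by exact_mod_cast hq.two_le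
  have hq0 : (0 : ℤ) < q := by omega
  have hc : 0 ≤ c := (abs_nonneg _).trans (hg 0)
  have hv := variation hp' hq' (Nat.isCoprime_iff_coprime.mpr hpq) (aa_eq hμ (n : ℤ))
    (aa_eq hμ ((n : ℤ) - 1)) (aa_eq hμ ((n : ℤ) - 2)) (ii_nonneg hq0 _ _) (ii_lt hq0 _ _)
    (ii_nonneg hq0 _ _) (ii_lt hq0 _ _) (ii_nonneg hq0 _ _) (ii_lt hq0 _ _)
  have e1 := ps_lip hg (aa p q μ n) (aa p q μ (n - 1))
  have e2 := ps_lip hg (aa p q μ (n - 1)) (aa p q μ (n - 2))
  have n1 := abs_nonneg (aa (p : ℤ) q μ n - aa p q μ (n - 1))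
  have n2 := abs_nonneg (aa (p : ℤ) q μ (n - 1) - aa p q μ (n - 2))
  have k1 := mul_le_mul_of_nonneg_left hv hc
  rw [mul_add] at k1
  have k2 := mul_nonneg hc n1
  have k3 := mul_nonneg hc n2
  refine ⟨?_, ?_⟩
  · rw [coeff_W hp hq h hμ]
    linarith
  · have h1 : (X - 1) * (cyclotomic (p * q) ℤ * expand ℤ q g) =
        X ^ 1 * (cyclotomic (p * q) ℤ * expand ℤ q g) - cyclotomic (p * q) ℤ * expand ℤ q g := by
      ring
    rw [h1, coeff_sub, coeff_X_pow_mul']
    have h2 : (if 1 ≤ n then (cyclotomic (p * q) ℤ * expand ℤ q g).coeff (n - 1) else 0) =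
        ps g (aa p q μ (n - 1)) - ps g (aa p q μ (n - 2)) := by
      split_ifs with h3
      · rw [coeff_W hp hq h hμ, Nat.cast_sub h3]
        congr 3
        · push_cast; ring
      · rw [ps_neg g (aa_neg (by omega) hq0 hμ (by omega)),
          ps_neg g (aa_neg (by omega) hq0 hμ (by omega)), sub_zero]
    rw [h2, coeff_W hp hq h hμ]
    refine (abs_sub _ _).trans ?_
    linarith

/-! ## All divisors of `x ^ (p q) - 1` -/

theorem mult4 {F : ℤ[X]} {c : ℤ} (hF : ∀ n, |F.coeff n| ≤ c) {p : ℕ} (hp : 2 ≤ p) {a b : ℤ[X]}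
    (ha : a = 1 ∨ a = X - 1) (hb : b = 1 ∨ b = ∑ i ∈ Finset.range p, X ^ i) (n : ℕ) :
    |(a * b * F).coeff n| ≤ p * c := by
  have hc : 0 ≤ c := (abs_nonneg _).trans (hF 0)
  have hp' : (2 : ℤ) ≤ p := by exact_mod_cast hp
  have h2 : 2 * c ≤ p * c := mul_le_mul_of_nonneg_right hp' hc
  rcases ha with rfl | rfl <;> rcases hb with rfl | rfl
  · rw [one_mul, one_mul]
    have := hF n
    linarith
  · rw [one_mul]
    exact bd_geom hF p n
  · rw [mul_one]
    have := bd_X_pow_sub_one hF 1 n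
    rw [pow_one] at this
    linarith
  · have h1 : (X - 1) * (∑ i ∈ Finset.range p, (X : ℤ[X]) ^ i) = X ^ p - 1 := by
      rw [mul_comm]; exact geom_sum_mul X p
    rw [h1]
    exact (bd_X_pow_sub_one hF p n).trans h2

theorem lastW {p q : ℕ} (hp : p.Prime) (hq : q.Prime) (h : p ≠ q) {g : ℤ[X]} {c : ℤ}
    (hg : ∀ n, |g.coeff n| ≤ c) {a b : ℤ[X]}
    (ha : a = 1 ∨ a = X - 1) (hb : b = 1 ∨ b = ∑ i ∈ Finset.range p, X ^ i) (n : ℕ) :
    |(a * b * (cyclotomic (p * q) ℤ * expand ℤ q g)).coeff n| ≤ p * c := by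
  have hb1 : (∑ i ∈ Finset.range p, X ^ i) * (cyclotomic (p * q) ℤ * expand ℤ q g) =
      expand ℤ q ((∑ i ∈ Finset.range p, X ^ i) * g) := by
    rw [map_mul, ← cyc_mul_geom' hp hq h]
    ring
  have hH : ∀ m, |(expand ℤ q ((∑ i ∈ Finset.range p, X ^ i) * g)).coeff m| ≤
      if q ∣ m then p * c else 0 := by
    intro m
    rw [coeff_expand hq.pos]
    split_ifs with h1
    · exact bd_geom hg p _
    · simp
  have hc : 0 ≤ c := (abs_nonneg _).trans (hg 0)
  have hpc : 0 ≤ (p : ℤ) * c := mul_nonneg (Int.natCast_nonneg _) hc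
  rcases ha with rfl | rfl <;> rcases hb with rfl | rfl
  · rw [one_mul, one_mul]
    exact (bd_W hp hq h hg n).1
  · rw [one_mul, hb1]
    refine (hH n).trans ?_
    split_ifs
    · exact le_rfl
    · exact hpc
  · rw [mul_one]
    exact (bd_W hp hq h hg n).2
  · rw [mul_assoc, hb1]
    set H := expand ℤ q ((∑ i ∈ Finset.range p, X ^ i) * g) with hHdef
    have h1 : (X - 1) * H = X ^ 1 * H - H := by ring
    rw [h1, coeff_sub, coeff_X_pow_mul']
    refine (abs_sub _ _).trans ?_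
    have h3 := hH n
    by_cases h2 : 1 ≤ n
    · rw [if_pos h2]
      have h4 := hH (n - 1)
      by_cases h5 : q ∣ n
      · have h6 : ¬ q ∣ n - 1 := by
          intro h7
          have h8 : q ∣ n - (n - 1) := Nat.dvd_sub h5 h7
          have h9 : n - (n - 1) = 1 := by omega
          rw [h9] at h8
          exact hq.one_lt.ne' (Nat.dvd_one.mp h8)
        rw [if_pos h5] at h3
        rw [if_neg h6] at h4
        linarith
      · rw [if_neg h5] at h3
        have h6 : (if q ∣ n - 1 then (p : ℤ) * c else 0) ≤ p * c := by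
          split_ifs
          · exact le_rfl
          · exact hpc
        linarith
    · rw [if_neg h2, abs_zero, zero_add]
      refine h3.trans ?_
      split_ifs
      · exact le_rfl
      · exact hpc

theorem divisors_pq {p q : ℕ} (hp : p.Prime) (hq : q.Prime) :
    (p * q).divisors ⊆ {1, p, q, p * q} := by
  intro d hd
  have h1 := Nat.dvd_of_mem_divisors hd
  obtain ⟨y, z, hy, hz, rfl⟩ := (Nat.dvd_mul).mp h1
  rcases (Nat.dvd_prime hp).mp hy with rfl | rfl <;>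
    rcases (Nat.dvd_prime hq).mp hz with rfl | rfl <;> simp

theorem upper {p q : ℕ} (hp : p.Prime) (hq : q.Prime) (h : p ≠ q) {g : ℤ[X]} {c : ℤ}
    (hg : ∀ n, |g.coeff n| ≤ c) (t : Finset ℕ) (ht : t ⊆ (p * q).divisors) (n : ℕ) :
    |((∏ d ∈ t, cyclotomic d ℤ) * expand ℤ q g).coeff n| ≤ p * c := by
  classical
  have := Fact.mk hp
  have := Fact.mk hq
  have hpq : p.Coprime q := (Nat.coprime_primes hp hq).mpr h
  have h1p : 1 ≠ p := hp.one_lt.ne
  have h1q : 1 ≠ q := hq.one_lt.ne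
  have hppq : p ≠ p * q := by
    intro h1
    have := hp.pos
    have := hq.two_le
    nlinarith
  have hqpq : q ≠ p * q := by
    intro h1
    have := hq.pos
    have := hp.two_le
    nlinarith
  have h1pq : 1 ≠ p * q := by
    intro h1
    have := hq.two_le
    have := hp.two_le
    nlinarith
  have hprod : ∏ d ∈ t, cyclotomic d ℤ =
      ((if 1 ∈ t then cyclotomic 1 ℤ else 1) * (if p ∈ t then cyclotomic p ℤ else 1)) *
      ((if q ∈ t then cyclotomic q ℤ else 1) *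
        (if p * q ∈ t then cyclotomic (p * q) ℤ else 1)) := by
    have h2 : ∏ d ∈ ({1, p, q, p * q} : Finset ℕ), (if d ∈ t then cyclotomic d ℤ else 1) =
        ∏ d ∈ t, cyclotomic d ℤ := by
      rw [Finset.prod_ite_mem, Finset.inter_eq_right.mpr (ht.trans (divisors_pq hp hq))]
    rw [← h2, Finset.prod_insert (by simp [h1p, h1q, h1pq]),
      Finset.prod_insert (by simp [h, hppq]), Finset.prod_insert (by simp [hqpq]),
      Finset.prod_singleton]
    ring
  set a := (if 1 ∈ t then cyclotomic 1 ℤ else 1) with ha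
  set b := (if p ∈ t then cyclotomic p ℤ else 1) with hb
  have ha' : a = 1 ∨ a = X - 1 := by
    rw [ha]; split_ifs
    · right; exact cyclotomic_one ℤ
    · left; rfl
  have hb' : b = 1 ∨ b = ∑ i ∈ Finset.range p, X ^ i := by
    rw [hb]; split_ifs
    · right; exact cyclotomic_prime ℤ p
    · left; rfl
  rw [hprod]
  have hF1 : ∀ m, |(expand ℤ q g).coeff m| ≤ c := by
    intro m
    have := bd_mul_expand hq.pos hg {0} (fun _ => 0)
      (by intro k hk l hl _; simp at hk hl; rw [hk, hl]) m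
    simpa using this
  have hF2 : ∀ m, |((∑ i ∈ Finset.range q, X ^ i) * expand ℤ q g).coeff m| ≤ c :=
    bd_mul_expand hq.pos hg (Finset.range q) (fun k => k) inj_id
  have hF3 : ∀ m, |((∑ i ∈ Finset.range q, X ^ (p * i)) * expand ℤ q g).coeff m| ≤ c :=
    bd_mul_expand hq.pos hg (Finset.range q) (fun k => p * k) (inj_mul hpq)
  by_cases h3 : q ∈ t <;> by_cases h4 : p * q ∈ t
  · rw [if_pos h3, if_pos h4, cyclotomic_prime ℤ q,
      mul_comm (∑ i ∈ Finset.range q, X ^ i) (cyclotomic (p * q) ℤ), cyc_mul_geom hp hq h,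
      mul_assoc]
    exact mult4 hF3 hp.two_le ha' hb' n
  · rw [if_pos h3, if_neg h4, cyclotomic_prime ℤ q, mul_one, mul_assoc]
    exact mult4 hF2 hp.two_le ha' hb' n
  · rw [if_neg h3, if_pos h4, one_mul, mul_assoc]
    exact lastW hp hq h hg ha' hb' n
  · rw [if_neg h3, if_neg h4, one_mul, mul_one]
    exact mult4 hF1 hp.two_le ha' hb' n

/-! ## The recursion -/

theorem upper_all {p q b : ℕ} (hp : p.Prime) (hq : q.Prime) (h : p ≠ q) (hb : 0 < b) {c : ℕ}
    (hc : ∀ g : ℤ[X], g * (X ^ p - 1) ∣ X ^ (p * q ^ (b - 1)) - 1 → height g ≤ c)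
    {f : ℤ[X]} (hf : f ∣ X ^ (p * q ^ b) - 1) : height f ≤ p * c := by
  classical
  have hn : 0 < p * q ^ b := Nat.mul_pos hp.pos (pow_pos hq.pos b)
  have hn' : 0 < p * q ^ (b - 1) := Nat.mul_pos hp.pos (pow_pos hq.pos _)
  have hqp : ¬ q ∣ p := fun h2 => h ((Nat.prime_dvd_prime_iff_eq hq hp).mp h2).symm
  obtain ⟨t, ht, hft⟩ := divisors_of_X_pow_sub_one hn hf
  set t2 := ((p * q ^ (b - 1)).divisors).filter (fun d => q ∣ d ∧ d * q ∈ t) with ht2
  have himg : t.filter (fun d => ¬ d ∣ p * q) = t2.image (fun d => d * q) := by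
    ext d
    simp only [Finset.mem_filter, Finset.mem_image, ht2, Nat.mem_divisors]
    constructor
    · rintro ⟨hd, hd2⟩
      have h1 := Nat.dvd_of_mem_divisors (ht hd)
      obtain ⟨y, z, hy, hz, hyz⟩ := (Nat.dvd_mul).mp h1
      obtain ⟨k, hk, rfl⟩ := (Nat.dvd_prime_pow hq).mp hz
      have hk2 : 2 ≤ k := by
        by_contra h2
        push Not at h2
        apply hd2
        rw [← hyz]
        apply mul_dvd_mul hy
        have : q ^ k ∣ q ^ 1 := pow_dvd_pow q (by omega)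
        rwa [pow_one] at this
      obtain ⟨j, rfl⟩ : ∃ j, k = j + 2 := ⟨k - 2, by omega⟩
      have e1 : y * q ^ (j + 1) * q = d := by rw [← hyz]; ring
      refine ⟨y * q ^ (j + 1), ⟨⟨mul_dvd_mul hy (pow_dvd_pow q (by omega)), hn'.ne'⟩, ?_, ?_⟩, e1⟩
      · exact Dvd.dvd.mul_left (dvd_pow_self q (by omega)) y
      · rw [e1]; exact hd
    · rintro ⟨e, ⟨_, h2, h3⟩, rfl⟩
      refine ⟨h3, fun h4 => hqp ?_⟩
      have h5 : e ∣ p := Nat.dvd_of_mul_dvd_mul_right hq.pos h4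
      exact h2.trans h5
  have hsplit : ∏ d ∈ t, cyclotomic d ℤ =
      (∏ d ∈ t.filter (fun d => d ∣ p * q), cyclotomic d ℤ) *
        expand ℤ q (∏ d ∈ t2, cyclotomic d ℤ) := by
    rw [← Finset.prod_filter_mul_prod_filter_not t (fun d => d ∣ p * q), himg,
      Finset.prod_image (fun x _ y _ hxy => Nat.eq_of_mul_eq_mul_right hq.pos hxy), map_prod]
    congr 1
    refine Finset.prod_congr rfl fun d hd => ?_
    rw [ht2, Finset.mem_filter] at hd
    exact (cyclotomic_expand_eq_cyclotomic hq hd.2.1 ℤ).symm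
  have hg : (∏ d ∈ t2, cyclotomic d ℤ) * (X ^ p - 1) ∣ X ^ (p * q ^ (b - 1)) - 1 := by
    rw [← prod_cyclotomic_eq_X_pow_sub_one hp.pos, ← Finset.prod_union]
    · apply prod_dvd hn'
      apply Finset.union_subset
      · rw [ht2]; exact Finset.filter_subset _ _
      · exact Nat.divisors_subset_of_dvd hn'.ne' (dvd_mul_right _ _)
    · rw [Finset.disjoint_left]
      intro d hd hd'
      rw [ht2, Finset.mem_filter] at hd
      exact hqp (hd.2.1.trans (Nat.dvd_of_mem_divisors hd'))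
  have hgc : ∀ n, |(∏ d ∈ t2, cyclotomic d ℤ).coeff n| ≤ (c : ℤ) := by
    intro n
    refine (le_height _ n).trans ?_
    exact_mod_cast hc _ hg
  have hfin : height (∏ d ∈ t, cyclotomic d ℤ) ≤ p * c := by
    apply height_le
    intro n
    rw [hsplit]
    push_cast
    apply upper hp hq h hgc
    intro d hd
    rw [Finset.mem_filter] at hd
    rw [Nat.mem_divisors]
    exact ⟨hd.2, (Nat.mul_pos hp.pos hq.pos).ne'⟩
  rcases hft with rfl | rfl
  · exact hfin
  · rw [height_neg]; exact hfin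

theorem coeff_V {q : ℕ} (hq : 0 < q) (g : ℤ[X]) (n : ℕ) :
    ((∑ i ∈ Finset.range q, X ^ i) * expand ℤ q g).coeff n = g.coeff (n / q) := by
  have h1 := coeff_of_mem hq g (Finset.range q) (fun i => i) inj_id n (n % q)
    (Finset.mem_range.mpr (Nat.mod_lt _ hq)) (Nat.mod_le _ _) (Nat.dvd_sub_mod n)
  rw [h1]
  congr 1
  have h2 : n - n % q = q * (n / q) := by
    have := Nat.div_add_mod n q
    omega
  rw [h2, Nat.mul_div_cancel_left _ hq]

theorem lower {p q b : ℕ} (hp : p.Prime) (hq : q.Prime) (h : p < q) (hb : 0 < b) {g : ℤ[X]}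
    (hg : g * (X ^ p - 1) ∣ X ^ (p * q ^ (b - 1)) - 1) :
    ∃ f : ℤ[X], f ∣ X ^ (p * q ^ b) - 1 ∧ p * height g ≤ height f := by
  refine ⟨(∑ i ∈ Finset.range p, X ^ i) * ((∑ i ∈ Finset.range q, X ^ i) * expand ℤ q g), ?_, ?_⟩
  · have h1 : expand ℤ q (g * (X ^ p - 1)) ∣ expand ℤ q (X ^ (p * q ^ (b - 1)) - 1) := by
      obtain ⟨r, hr⟩ := hg
      exact ⟨expand ℤ q r, by rw [hr, map_mul]⟩
    have e1 : expand ℤ q (X ^ (p * q ^ (b - 1)) - 1) = X ^ (p * q ^ b) - 1 := by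
      rw [map_sub, map_one, map_pow, expand_X, ← pow_mul]
      congr 2
      obtain ⟨j, rfl⟩ : ∃ j, b = j + 1 := ⟨b - 1, by omega⟩
      rw [Nat.add_sub_cancel]
      ring
    have e2 : expand ℤ q (g * (X ^ p - 1)) = (X ^ (p * q) - 1) * expand ℤ q g := by
      rw [map_mul, map_sub, map_one, map_pow, expand_X, ← pow_mul, mul_comm q p]
      ring
    rw [e1, e2] at h1
    refine dvd_trans ?_ h1
    rw [← mul_assoc]
    refine mul_dvd_mul ?_ dvd_rfl
    have h2 := cyc_mul_geom hp hq h.ne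
    have h3 : (∑ i ∈ Finset.range q, (X : ℤ[X]) ^ (p * i)) * (X ^ p - 1) = X ^ (p * q) - 1 := by
      have h4 := geom_sum_mul ((X : ℤ[X]) ^ p) q
      simp only [← pow_mul] at h4
      exact h4
    have h5 : (∑ i ∈ Finset.range p, (X : ℤ[X]) ^ i) * (X - 1) = X ^ p - 1 := geom_sum_mul X p
    rw [← h3, ← h2, ← h5]
    exact ⟨cyclotomic (p * q) ℤ * (X - 1), by ring⟩
  · obtain ⟨m, hm⟩ := exists_coeff_eq_height g
    have h1 : ((∑ i ∈ Finset.range p, X ^ i) *
        ((∑ i ∈ Finset.range q, X ^ i) * expand ℤ q g)).coeff (q * m + (p - 1)) =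
        p * g.coeff m := by
      rw [Finset.sum_mul, Polynomial.finsetSum_coeff]
      rw [Finset.sum_congr rfl (g := fun _ => g.coeff m)]
      · simp
      · intro i hi
        rw [Finset.mem_range] at hi
        rw [coeff_X_pow_mul', if_pos (by omega), coeff_V hq.pos]
        congr 1
        have h2 : q * m + (p - 1) - i = (p - 1 - i) + q * m := by omega
        rw [h2, Nat.add_mul_div_left _ _ hq.pos, Nat.div_eq_of_lt (by omega), zero_add]
    have h2 := le_height ((∑ i ∈ Finset.range p, X ^ i) *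
        ((∑ i ∈ Finset.range q, X ^ i) * expand ℤ q g)) (q * m + (p - 1))
    rw [h1, abs_mul, hm, Nat.abs_cast] at h2
    exact_mod_cast h2

/-- For all primes `p < q` and all `b ≥ 1` the maximal height `B (p q ^ b)` of a divisor of
`x ^ (p q ^ b) - 1` is `p` times the maximal height of a divisor of
`(x ^ (p q ^ (b - 1)) - 1) / (x ^ p - 1)`; in particular it is divisible by `p`. -/
theorem result :
    (∀ n : ℕ, 0 < n → IsGreatest {h : ℕ | ∃ f : ℤ[X], f ∣ X ^ n - 1 ∧ height f = h} (B n)) ∧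
    ∀ p q b : ℕ, p.Prime → q.Prime → p < q → 0 < b →
      IsGreatest {h : ℕ | ∃ g : ℤ[X], g * (X ^ p - 1) ∣ X ^ (p * q ^ (b - 1)) - 1 ∧ height g = h}
        (D p q b) ∧
      B (p * q ^ b) = p * D p q b ∧ p ∣ B (p * q ^ b) := by
  have hB : ∀ n : ℕ, 0 < n →
      IsGreatest {h : ℕ | ∃ f : ℤ[X], f ∣ X ^ n - 1 ∧ height f = h} (B n) := fun n hn =>
    isGreatest_of_dvd hn (fun f => f ∣ X ^ n - 1) (fun f hf => hf) ⟨1, one_dvd _⟩
  refine ⟨hB, fun p q b hp hq h hb => ?_⟩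
  have hn' : 0 < p * q ^ (b - 1) := Nat.mul_pos hp.pos (pow_pos hq.pos _)
  have hD : IsGreatest {h : ℕ | ∃ g : ℤ[X],
      g * (X ^ p - 1) ∣ X ^ (p * q ^ (b - 1)) - 1 ∧ height g = h} (D p q b) := by
    refine isGreatest_of_dvd hn' (fun g => g * (X ^ p - 1) ∣ X ^ (p * q ^ (b - 1)) - 1)
      (fun g hg => (dvd_mul_right _ _).trans hg) ⟨1, ?_⟩
    rw [one_mul]
    have h1 := sub_dvd_pow_sub_pow ((X : ℤ[X]) ^ p) 1 (q ^ (b - 1))
    rwa [one_pow, ← pow_mul] at h1
  have hBpq := hB (p * q ^ b) (Nat.mul_pos hp.pos (pow_pos hq.pos b))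
  have heq : B (p * q ^ b) = p * D p q b := by
    apply le_antisymm
    · obtain ⟨f, hf, hfh⟩ := hBpq.1
      rw [← hfh]
      exact upper_all hp hq h.ne hb (fun g hg => hD.2 ⟨g, hg, rfl⟩) hf
    · obtain ⟨g, hg, hgh⟩ := hD.1
      obtain ⟨f, hf, hfh⟩ := lower hp hq h hb hg
      rw [hgh] at hfh
      exact hfh.trans (hBpq.2 ⟨f, hf, rfl⟩)
  exact ⟨hD, heq, heq ▸ dvd_mul_right _ _⟩

end Pool.Agent.Results.MP_b384de_nt.DivisibleByP
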